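import Mathlib
import Pool.Agent.TH575.OM.FinT

/-!
# Correlations with one arbitrary factor, in natural average, outside few dyadic scales
-/

set_option autoImplicit false

namespace Pool.Agent.Results.MP_f3f922_nt.OneArbitraryFewScales

open Finset

/-- the twist `n ^ {i t}` -/
noncomputable def nit (t : ℝ) (n : ℕ) : ℂ := Complex.exp (((t * Real.log n : ℝ) : ℂ) * Complex.I)

/-- multiplicative functions with values in the unit disc -/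
def Mult (f : ℕ → ℂ) : Prop :=
  (∀ n, ‖f n‖ ≤ 1) ∧ ∀ m n : ℕ, 1 ≤ m → 1 ≤ n → Nat.Coprime m n → f (m * n) = f m * f n

/-- `f(p)` is near `z χ(p) p ^ {i t}`: the sum of `|f(p) - z χ(p) p ^ {i t}| / p` over the primes
`p₀ < p ≤ X` is at most `η` -/
def Near (p₀ q X : ℕ) (χ : DirichletCharacter ℂ q) (t : ℝ) (z : ℂ) (η : ℝ) (f : ℕ → ℂ) : Prop :=
  ∑ p ∈ (Ioc p₀ X).filter Nat.Prime, ‖f p - z * χ (p : ZMod q) * nit t p‖ / p ≤ η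

/-- the mean over `1 ≤ n ≤ M` of `f(n + h₁) g(n + h₂) ∏ F_j(n + h_j)` -/
noncomputable def Mean {r : ℕ} (f g : ℕ → ℂ) (F : Fin r → ℕ → ℂ) (h₁ h₂ : ℕ) (h : Fin r → ℕ) (M : ℕ) : ℂ :=
  (∑ n ∈ Icc 1 M, f (n + h₁) * g (n + h₂) * ∏ j, F j (n + h j)) / (M : ℂ)

/-- the mean over `1 ≤ n ≤ M` of `w(n) (n + h₁) ^ {i t} (a(Ω(n + h₁)) - A) g(n + h₂)`, where `A` is the
mean of `a(Ω(m))` over `1 ≤ m ≤ M` -/
noncomputable def MeanΩ (w a g : ℕ → ℂ) (t : ℝ) (h₁ h₂ M : ℕ) : ℂ :=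
  (∑ n ∈ Icc 1 M, w n * nit t (n + h₁) * (a (ArithmeticFunction.cardFactors (n + h₁)) -
    (∑ m ∈ Icc 1 M, a (ArithmeticFunction.cardFactors m)) / (M : ℂ)) * g (n + h₂)) / (M : ℂ)

open scoped Classical in
/-- Few bad scales, with a bound uniform in all the functions: (1) one function near
`z χ(n) n ^ {i t}`, `z ≠ 1`, one arbitrary, the others near `χ_j(n) n ^ {i t_j}`;
(2) a centred function of `Ω(n)` and an arbitrary multiplicative function. -/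
theorem result (h₁ h₂ : ℕ) (hne : h₁ ≠ h₂) (q : ℕ) (hq : 1 ≤ q) (ε : ℝ) (hε : 0 < ε) :
    (∀ (r : ℕ) (h : Fin r → ℕ) (p₀ : ℕ),
      ∃ η : ℝ, 0 < η ∧ ∃ C : ℝ, ∀ J : ℕ, ∃ δ : ℝ, 0 < δ ∧ ∃ x₀ : ℕ, ∀ x : ℕ, x₀ ≤ x →
        ∀ (t : ℝ) (ts : Fin r → ℝ), |t| ≤ δ * x → (∀ j, |ts j| ≤ δ * x) →
        ∀ (χ : DirichletCharacter ℂ q) (χs : Fin r → DirichletCharacter ℂ q) (z : ℂ), ‖z‖ = 1 → ε ≤ ‖z - 1‖ →
        ∀ (f g : ℕ → ℂ) (F : Fin r → ℕ → ℂ), Mult f → Mult g → (∀ j, Mult (F j)) →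
        Near p₀ q (2 * x) χ t z η f → (∀ j, Near p₀ q (2 * x) (χs j) (ts j) 1 η (F j)) →
        ∑ i ∈ (Icc 1 J).filter (fun i => ε < ‖Mean f g F h₁ h₂ h (x / 2 ^ i)‖), 1 / (i : ℝ) ≤ C) ∧
    (∃ C : ℝ, ∀ J : ℕ, ∃ δ : ℝ, 0 < δ ∧ ∃ x₀ : ℕ, ∀ x : ℕ, x₀ ≤ x → ∀ t : ℝ, |t| ≤ δ * x →
        ∀ w a g : ℕ → ℂ, (∀ n, ‖w n‖ ≤ 1) → (∀ n, w n = w (n % q)) → (∀ n, ‖a n‖ ≤ 1) → Mult g →
        ∑ i ∈ (Icc 1 J).filter (fun i => ε < ‖MeanΩ w a g t h₁ h₂ (x / 2 ^ i)‖), 1 / (i : ℝ) ≤ C) := by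
  refine ⟨fun r h p₀ => Pool.Agent.TH575.OM.mainT r h₁ h₂ h hne p₀ q hq ε hε, ?_⟩
  obtain ⟨C, hC⟩ := Pool.Agent.TH575.OM.mainW h₁ h₂ hne q hq ε hε
  refine ⟨C, fun J => ?_⟩
  obtain ⟨δ, hδ, x₀, hx₀⟩ := hC J
  exact ⟨δ, hδ, x₀, fun x hx t ht w a g hw hwq ha hg => (hx₀ x hx t ht w hw hwq g hg.1 hg.2).1 a ha⟩

end Pool.Agent.Results.MP_f3f922_nt.OneArbitraryFewScales
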