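import Pool.Agent.TH823.EL.PolyU

/-!
# Elliott's conjecture at every scale for all but a power-saving proportion of the tuples of shifts

From the starting files: the large sieve (`Pool.Agent.Helper112`), bilinear exponential sums and the moments of Weyl
sums (`Pool.Agent.H373R2`), Dirichlet's approximation (`Pool.Agent.W93`), the Turan–Kubilius inequality
(`Pool.Agent.Helper480`), Mertens' theorem.
From Mathlib: `DirichletCharacter ℂ q`: the Dirichlet characters of modulus `q`; `starRingEnd ℂ`: complex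
conjugation; `Finset.Icc 1 X`: the integers `n` with `1 ≤ n ≤ X`; `Fintype.piFinset S`: the tuples `m` with
`m i ∈ S i` for all `i`; `Polynomial ℤ`: the polynomials with integer coefficients; `f.eval m`: the value at `m`.
-/

set_option autoImplicit false

namespace Pool.Agent.Results.MP_f3f922_nt.PowerSavingTuples

open Finset

/-- The function `f` on the positive integers as a function on the integers, `0` at the integers `m ≤ 0`. -/
noncomputable def ext (f : ℕ → ℂ) (m : ℤ) : ℂ := if 1 ≤ m then f m.toNat else 0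

/-- The primes `p` with `y < p ≤ z`. -/
def primes (y z : ℕ) : Finset ℕ := (Ioc y z).filter Nat.Prime

/-- `f` is bounded by `1` and satisfies `|f (p n) - w p * f n| ≤ τ` for the primes `p` with `y < p ≤ z` and all the
`n` not divisible by `p`. For `w = f` and `τ = 0` these are the functions bounded by `1` that are multiplicative with
respect to the primes between `y` and `z`, for example all multiplicative functions bounded by `1`. -/
def Window (y z : ℕ) (τ : ℝ) (w f : ℕ → ℂ) : Prop :=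
  (∀ n, ‖f n‖ ≤ 1) ∧ (∀ p, ‖w p‖ ≤ 1) ∧
    ∀ p n : ℕ, p.Prime → y < p → p ≤ z → ¬ p ∣ n → ‖f (p * n) - w p * f n‖ ≤ τ

/-- The square of the distance between `w` and `χ(n) n ^ (i t)` restricted to the primes `p` with `y < p ≤ z`. -/
noncomputable def dist2 {q : ℕ} (w : ℕ → ℂ) (χ : DirichletCharacter ℂ q) (t : ℝ) (y z : ℕ) : ℝ :=
  ∑ p ∈ primes y z,
    (1 - (w p * (starRingEnd ℂ) (χ (p : ZMod q) * (p : ℂ) ^ ((t : ℂ) * Complex.I))).re) / p

/-- On the primes `p` with `y < p ≤ z` the function `w` is far from all the functions `χ(n) n ^ (i t)` with `χ` of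
modulus `q ≤ Q` and `|t| ≤ Q ^ 4`: the square of the distance is at least `c` times the sum of the `1 / p`. -/
def Far (c : ℝ) (Q y z : ℕ) (w : ℕ → ℂ) : Prop :=
  ∀ q : ℕ, 1 ≤ q → q ≤ Q → ∀ (χ : DirichletCharacter ℂ q) (t : ℝ), |t| ≤ (Q : ℝ) ^ 4 →
    c * ∑ p ∈ primes y z, 1 / (p : ℝ) ≤ dist2 w χ t y z

/-- The class of functions at the scale `N`, with `Q` the integer part of `N ^ (1 / (2 D))`: `f` is multiplicative up
to `τ` with respect to the primes `p` with `Q ^ 6 < p ≤ Q ^ D`, and far from the `χ(n) n ^ (i t)` on the primes `p`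
with `Q ^ 6 < p ≤ Q ^ (6 E)`. -/
def Class (c τ : ℝ) (E D N : ℕ) (f : ℕ → ℂ) : Prop :=
  ∃ (Q : ℕ) (w : ℕ → ℂ), Q = ⌊(N : ℝ) ^ (1 / (2 * D : ℝ))⌋₊ ∧ Window (Q ^ 6) (Q ^ D) τ w f ∧
    Far c Q (Q ^ 6) (Q ^ (6 * E)) w

/-- The additive energy of order `p` of the family `s 1, ..., s x`: the number of the solutions of
`s (v 1) + ... + s (v p) = s (w 1) + ... + s (w p)` with all `v i`, `w i` in `{1, ..., x}`. -/
def energy (p x : ℕ) (s : ℕ → ℤ) : ℕ :=
  (((Fintype.piFinset fun _ : Fin p => Icc 1 x) ×ˢ (Fintype.piFinset fun _ : Fin p => Icc 1 x)).filter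
    (fun q => ∑ i, s (q.1 i) = ∑ i, s (q.2 i))).card

open Classical in
/-- The number of the elements of the finite set `S` with the property `F`. -/
noncomputable def num {α : Type} (S : Finset α) (F : α → Prop) : ℝ := ((S.filter F).card : ℝ)

/-- For all the families of integers in `[-B N, B N]` with an additive energy of order `p` of at most `N ^ δ` times the
minimal possible size `x ^ (2 p) / N`, all `a ≥ 1` and all weights `g` (bounded by `1`, or in mean square):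
`|∑ n ≤ X, g n * f (a n + s m)| ≤ ε N` for all `X ≤ B N / a`, for all but `x / N ^ δ` of the `m ≤ x`. -/
def Families (B p : ℕ) (ε δ : ℝ) (N : ℕ) (f : ℕ → ℂ) : Prop :=
  ∀ (x : ℕ) (s : ℕ → ℤ), (∀ m ∈ Icc 1 x, |s m| ≤ B * N) →
    (energy p x s : ℝ) * N ≤ (N : ℝ) ^ δ * (x : ℝ) ^ (2 * p) →
    ∀ (a : ℕ) (g : ℕ → ℂ), 1 ≤ a → ∑ n ∈ Icc 1 (B * N / a), ‖g n‖ ^ 2 ≤ B * N →
      num (Icc 1 x) (fun m => ¬ ∀ X : ℕ, a * X ≤ B * N →
        ‖∑ n ∈ Icc 1 X, g n * ext f (a * n + s m)‖ ≤ ε * N) ≤ x * (N : ℝ) ^ (-δ)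

/-- For all `a i ≤ A` and all `x i` with `N ^ (1 - δ) ≤ (x i) ^ (deg P i) ≤ A N`: all the tuples `m` with
`1 ≤ m i ≤ x i` with at most `x 1 ⋯ x r / N ^ δ` exceptions satisfy
`|∑ n ≤ X, ∏ i, g i (a i * n + P i (m i))| ≤ ε N` for all `X ≤ N`. -/
def Tuples (A : ℕ) {r : ℕ} (P : Fin r → Polynomial ℤ) (ε δ : ℝ) (N : ℕ) (g : Fin r → ℕ → ℂ) : Prop :=
  ∀ a : Fin r → ℕ, (∀ i, 1 ≤ a i ∧ a i ≤ A) →
  ∀ x : Fin r → ℕ, (∀ i, (x i) ^ (P i).natDegree ≤ A * N ∧ (N : ℝ) ^ (1 - δ) ≤ (x i : ℝ) ^ (P i).natDegree) →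
    num (Fintype.piFinset fun i => Icc 1 (x i)) (fun m => ¬ ∀ X : ℕ, X ≤ N →
      ‖∑ n ∈ Icc 1 X, ∏ i, ext (g i) (a i * n + (P i).eval (m i : ℤ))‖ ≤ ε * N) ≤
        (∏ i, (x i : ℝ)) * (N : ℝ) ^ (-δ)

lemma num_eq {α : Type} (S : Finset α) (F : α → Prop) [DecidablePred F] :
    num S F = ((S.filter F).card : ℝ) := by
  unfold num
  congr!

lemma npw_of {c c' : ℝ} (hcc : c ≤ c') {Q y z : ℕ} {w : ℕ → ℂ} (h : Far c' Q y z w) :
    Pool.Agent.TH823.EL.NPW c Q y z w := by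
  intro q _ hq χ t ht
  have h1 := h q (Nat.pos_of_ne_zero (NeZero.ne q)) hq χ⁻¹ t ht
  have hW : Pool.Agent.TH823.PS.WP (Pool.Agent.TH823.PS.PP y z) = ∑ p ∈ primes y z, 1 / (p : ℝ) := rfl
  rw [hW]
  have hW0 : 0 ≤ ∑ p ∈ primes y z, 1 / (p : ℝ) := sum_nonneg fun _ _ => by positivity
  have h2 : dist2 w χ⁻¹ t y z = ∑ p ∈ primes y z, 1 / (p : ℝ) -
      ∑ p ∈ Pool.Agent.TH823.PS.PP y z, (w p * χ (p : ZMod q) *
        Complex.exp (-(((t * Real.log p : ℝ) : ℂ) * Complex.I))).re / p := by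
    have hPP : Pool.Agent.TH823.PS.PP y z = primes y z := rfl
    rw [hPP]
    unfold dist2
    rw [← sum_sub_distrib]
    apply sum_congr rfl
    intro p hp
    rw [primes, mem_filter] at hp
    have hp0 : (p : ℂ) ≠ 0 := by exact_mod_cast hp.2.ne_zero
    have e1 : (starRingEnd ℂ) (χ⁻¹ (p : ZMod q) * (p : ℂ) ^ ((t : ℂ) * Complex.I)) =
        χ (p : ZMod q) * Complex.exp (-(((t * Real.log p : ℝ) : ℂ) * Complex.I)) := by
      rw [map_mul]
      congr 1
      · have := MulChar.star_apply' χ⁻¹ (p : ZMod q)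
        rw [inv_inv] at this
        exact this
      · rw [Complex.cpow_def_of_ne_zero hp0, ← Complex.exp_conj]
        congr 1
        rw [← Complex.natCast_log]
        simp only [map_mul, Complex.conj_ofReal, Complex.conj_I]
        push_cast
        ring
    rw [e1, sub_div, mul_assoc]
  rw [h2] at h1
  have h3 := mul_le_mul_of_nonneg_right hcc hW0
  linarith

lemma win_of {y z : ℕ} {τ : ℝ} {w f : ℕ → ℂ} (h : Window y z τ w f) : Pool.Agent.TH823.EL.Win y z τ w f :=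
  ⟨h.1, h.2.1, h.2.2⟩

lemma families_of {B p : ℕ} {ε δ : ℝ} {N : ℕ} {f : ℕ → ℂ}
    (h : Pool.Agent.TH823.PS.GoodF f B 1 p ε δ N) : Families B p ε δ N f := by
  classical
  intro x s hs hE a g ha hg
  have h1 := h x s hs hE (fun _ => a) (fun _ => g) (fun _ => ha) (fun _ => hg)
  refine le_trans (le_of_eq ?_) h1
  rw [num_eq]
  congr 2
  apply filter_congr
  intro m _
  constructor
  · exact fun h2 h3 => h2 (h3 0)
  · exact fun h2 h3 => h2 fun _ => h3

lemma tuples_of {A k : ℕ} {P : Fin (k + 1) → Polynomial ℤ} {ε δ : ℝ} {N : ℕ} {g : Fin (k + 1) → ℕ → ℂ}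
    (hg : ∀ i n, ‖g i n‖ ≤ 1) (j : Fin (k + 1))
    (h : Pool.Agent.TH823.PS.PolyG (g j) A 1 (P j) ε δ N) : Tuples A P ε δ N g := by
  classical
  intro a ha x hx
  rw [num_eq]
  refine Pool.Agent.TH823.PS.tuples_poly h x (hx j) (ha j).1 (ha j).2
    (fun b n => ∏ i : Fin k, ext (g (j.succAbove i)) (a (j.succAbove i) * n + (P (j.succAbove i)).eval (b i : ℤ)))
    ?_ _ ?_
  · intro b n
    rw [norm_prod]
    apply prod_le_one (fun _ _ => norm_nonneg _)
    intro i _
    unfold ext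
    split_ifs
    · exact hg _ _
    · rw [norm_zero]; exact zero_le_one
  · intro m hm
    push Not at hm
    obtain ⟨X, hX, h1⟩ := hm
    refine ⟨X, hX, lt_of_lt_of_eq h1 ?_⟩
    congr 1
    apply sum_congr rfl
    intro n _
    rw [Fin.prod_univ_succAbove _ j, mul_comm]
    rfl

/-- Let `B`, `p ≥ 1`, `A` be integers, `P 1, ..., P r` nonconstant integer polynomials, `c > 0` and `ε > 0`. There are
integers `E ≥ 1` and `D ≥ 6 E + 2` and real numbers `τ > 0` and `δ > 0` such that the following holds for all large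
`N`, with the class of functions `Class c τ E D N`: functions bounded by `1` that are multiplicative with respect to
the primes between `N ^ (3 / D)` and `N ^ (1 / 2)`, and far from all `χ(n) n ^ (i t)` on the primes between
`N ^ (3 / D)` and `N ^ (3 E / D)`.

* If `f` is in the class, then all the families of shifts of nearly minimal energy of order `p` have at most
  `x / N ^ δ` exceptional members, for all weights.
* If `g 1, ..., g r` are arbitrary functions bounded by `1`, one of which is in the class, then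
  `|∑ n ≤ X, ∏ i, g i (a i * n + P i (m i))| ≤ ε N` for all `X ≤ N`, for all the tuples `m` with `m i ≤ x i` but
  `x 1 ⋯ x r / N ^ δ`, for all `a i ≤ A` and all `x i` with `N ^ (1 - δ) ≤ (x i) ^ (deg P i) ≤ A N`. -/
theorem result (B p A r : ℕ) (P : Fin r → Polynomial ℤ) (hP : ∀ i, 1 ≤ (P i).natDegree) (c ε : ℝ) (hc : 0 < c)
    (hε : 0 < ε) :
    ∃ E D : ℕ, 1 ≤ E ∧ 6 * E + 2 ≤ D ∧ ∃ τ δ : ℝ, 0 < τ ∧ 0 < δ ∧ ∃ N₀ : ℕ, ∀ N : ℕ, N₀ ≤ N →
      (∀ f : ℕ → ℂ, Class c τ E D N f → Families B p ε δ N f) ∧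
      (∀ g : Fin r → ℕ → ℂ, (∀ i n, ‖g i n‖ ≤ 1) → (∃ j, Class c τ E D N (g j)) → Tuples A P ε δ N g) := by
  classical
  obtain ⟨τ, hτ, E, D, hE, hD, δ, hδ, Q0, hQ03, hQ0⟩ := Pool.Agent.TH823.EL.all_scales (min c 1)
    (lt_min hc one_pos) (min_le_right _ _) (B + A) 1 p P hP hε
  obtain ⟨N₀, hN₀⟩ := Pool.Agent.TH823.EL.scale_root D (by omega) Q0
  have key : ∀ N : ℕ, N₀ ≤ N → ∀ f : ℕ → ℂ, Class c τ E D N f →
      Pool.Agent.TH823.PS.GoodF f (B + A) 1 p ε δ N ∧ ∀ i, Pool.Agent.TH823.PS.PolyG f (B + A) 1 (P i) ε δ N := by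
    intro N hN f hf
    obtain ⟨Q, w, hQ, hw, hfar⟩ := hf
    obtain ⟨h1, h2, h3⟩ := hN₀ N hN
    rw [← hQ] at h1 h2 h3
    exact hQ0 Q h1 w f τ hτ.le le_rfl (win_of hw) (npw_of (min_le_left _ _) hfar) N h2 h3
  refine ⟨E, D, hE, hD, τ, δ, hτ, hδ, N₀, fun N hN => ⟨fun f hf => ?_, fun g hg hj => ?_⟩⟩
  · exact families_of (Pool.Agent.TH823.EL.good_monoB (by omega) (key N hN f hf).1)
  · obtain ⟨j, hj⟩ := hj
    rcases r with _ | k
    · exact j.elim0
    · exact tuples_of hg j (Pool.Agent.TH823.EL.poly_monoB (by omega) ((key N hN (g j) hj).2 j))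

end Pool.Agent.Results.MP_f3f922_nt.PowerSavingTuples
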