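import Pool.Agent.TH327.Dim.Exist2
import Pool.Agent.TH327.Dim.Meas3

/-! Correlations of arbitrary multiplicative functions with values in the unit disk, as functions of one shift,
are the Fourier coefficients of measures whose restriction to each set of packing dimension less than one half is
carried by the rational points; uniformly over all functions. -/

set_option autoImplicit false

open Filter Topology MeasureTheory Finset

namespace Pool.Agent.Results.MP_f3f922_nt.SpectralDimension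

/-- `f` is a multiplicative function on the positive integers with values in the unit disk. -/
def IsMult (f : ℕ → ℂ) : Prop :=
  (∀ n, 1 ≤ n → ‖f n‖ ≤ 1) ∧ ∀ m n : ℕ, 1 ≤ m → 1 ≤ n → Nat.Coprime m n → f (m * n) = f m * f n

/-- The value of `f` at an integer, zero at the integers which are not positive. -/
noncomputable def value (f : ℕ → ℂ) (m : ℤ) : ℂ := if 1 ≤ m then f m.toNat else 0

/-- The set `K` in `ℝ/ℤ` has upper box dimension less than one half: for some `C` and some `s < 1/2`, for each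
`n ≥ 1` it is covered by at most `C n ^ s` arcs of radius `1 / n`. -/
def SmallBoxDim (K : Set UnitAddCircle) : Prop :=
  ∃ C s : ℝ, s < 1 / 2 ∧ ∀ n : ℕ, 1 ≤ n → ∃ F : Finset UnitAddCircle, (F.card : ℝ) ≤ C * (n : ℝ) ^ s ∧
    ∀ x ∈ K, ∃ y ∈ F, ‖x - y‖ ≤ 1 / n

/-- The sequence `c` consists of the Fourier coefficients of the complex measure `w σ`, where `σ` is a finite
positive Borel measure on `ℝ/ℤ` and `w` is `σ`-integrable: `c h = ∫ exp (2 π i h θ) w(θ) dσ(θ)`. -/
def Represents (σ : Measure UnitAddCircle) (w : UnitAddCircle → ℂ) (c : ℤ → ℂ) : Prop :=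
  IsFiniteMeasure σ ∧ Integrable w σ ∧ ∀ h : ℤ, c h = ∫ θ, fourier h θ * w θ ∂σ

/-- the conjugate, with the value zero at zero -/
noncomputable def cj (f : ℕ → ℂ) (n : ℕ) : ℂ := if n = 0 then 0 else (starRingEnd ℂ) (f n)

lemma cj_le {f : ℕ → ℂ} (hf : IsMult f) (n : ℕ) : ‖cj f n‖ ≤ 1 := by
  unfold cj
  split_ifs with h
  · simp
  · rw [RCLike.norm_conj]; exact hf.1 n (by omega)

lemma cj_mem {f : ℕ → ℂ} (hf : IsMult f) : cj f ∈ Pool.Agent.TH327.Dim.Mul1 := by
  refine ⟨cj_le hf, fun a b ha hb hab => ?_⟩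
  unfold cj
  rw [if_neg (Nat.mul_pos ha hb).ne', if_neg (by omega), if_neg (by omega), hf.2 a b ha hb hab, map_mul]

lemma value_eq (f : ℕ → ℂ) (m : ℤ) : value f m = (starRingEnd ℂ) (cj f m.toNat) := by
  unfold value cj
  by_cases h : 1 ≤ m
  · rw [if_pos h, if_neg (by omega), Complex.conj_conj]
  · rw [if_neg h, if_pos (by omega), map_zero]

open Pool.Agent.TH327.Dim in
/-- **Spectral dimension of multiplicative functions, uniformly.** Let `f_j` be multiplicative functions with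
values in the unit disk and `g_j` arbitrary sequences with values in the unit disk (for example products of shifted
multiplicative functions), and let `N_j → ∞` be such that the correlations
`c h = lim (1/N_j) ∑_{n ≤ N_j} g_j(n) f_j(n + h)` exist for all integers `h`. Then `c` is the sequence of the
Fourier coefficients of a complex measure on the circle, and the restriction of each such measure to each
countable union of sets of upper box dimension less than one half is carried by the rational points of the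
circle (those of finite order). -/
theorem result (f : ℕ → ℕ → ℂ) (hf : ∀ j, IsMult (f j)) (g : ℕ → ℕ → ℂ) (hg : ∀ j n, ‖g j n‖ ≤ 1)
    (N : ℕ → ℕ) (hN : Tendsto N atTop atTop) (c : ℤ → ℂ)
    (hc : ∀ h : ℤ, Tendsto (fun j => (1 / (N j : ℂ)) * ∑ n ∈ Icc 1 (N j), g j n * value (f j) (n + h)) atTop
      (𝓝 (c h))) :
    (∃ σ w, Represents σ w c) ∧
    ∀ σ w, Represents σ w c → ∀ K : ℕ → Set UnitAddCircle, (∀ i, SmallBoxDim (K i)) →
      ∀ᵐ θ ∂σ, θ ∈ ⋃ i, K i → ¬ IsOfFinAddOrder θ → w θ = 0 := by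
  have hc' : ∀ h : ℤ, Tendsto (fun j => (1 / (N j : ℂ)) * ∑ n ∈ Icc 1 (N j), g j n *
      (starRingEnd ℂ) (cj (f j) ((n : ℤ) + h).toNat)) atTop (𝓝 (c h)) := by
    intro h
    refine (hc h).congr fun j => ?_
    congr 1
    exact sum_congr rfl fun n _ => by rw [value_eq]
  have h0 : ∀ j, cj (f j) 0 = 0 := fun j => by unfold cj; rw [if_pos rfl]
  constructor
  · obtain ⟨σ, w, h1, h2, h3⟩ := exists_repU (fun j => cj (f j)) g h0 (fun j => cj_le (hf j)) 1 hg N hN c hc'
    exact ⟨σ, w, h1, h2, h3⟩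
  · rintro σ w ⟨h1, h2, h3⟩ K hK
    refine small_nullU (h := fun j => cj (f j)) (g := g) (B := 1) (N := N) h0 (fun j => cj_le (hf j)) hg hN h2
      (fun k => ?_) (F := Mul1) (fun j => cj_mem (hf j)) ?_ (K := K) (fun i => ?_)
    · have := hc' k
      rw [h3 k] at this
      exact this
    · intro C s κ hC hs0 hs hκ
      exact good_mult hC hs0 hs κ hκ
    · obtain ⟨C, s, hs, h4⟩ := hK i
      exact ⟨C, s, hs, h4⟩

/-! ### The uniform finite form (not part of `result`) -/

open Pool.Agent.TH327.Dim in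
/-- Uniformly over all multiplicative functions `f` with values in the unit disk, over all large `N` and over all
sets `K` with covering numbers at most `C n ^ s`, where `s < 1/2`, and distance at least `κ r` from the rational
points with denominator `r`, for each `r`: the mass which `|∑_{n ≤ N} f(n) e(nθ)|² dθ / N` gives to the
`ρ`-neighbourhood of `K` is at most `ε`. -/
theorem uniform_form (C s : ℝ) (hC : 0 ≤ C) (hs0 : 0 ≤ s) (hs : s < 1 / 2) (κ : ℕ → ℝ) (hκ : ∀ r, 0 < κ r)
    (ε : ℝ) (hε : 0 < ε) :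
    ∃ ρ : ℝ, 0 < ρ ∧ ∃ N₀ : ℕ, ∀ K : Set UnitAddCircle,
      (∀ n : ℕ, 1 ≤ n → ∃ F : Finset UnitAddCircle, (F.card : ℝ) ≤ C * (n : ℝ) ^ s ∧ ∀ x ∈ K, ∃ y ∈ F, ‖x - y‖ ≤ 1 / n) →
      (∀ x ∈ K, ∀ r : ℕ, 1 ≤ r → ∀ b : ℤ, κ r ≤ ‖x - (((b : ℝ) / r : ℝ) : UnitAddCircle)‖) →
      ∀ f : ℕ → ℂ, (∀ n, ‖f n‖ ≤ 1) → (∀ a b : ℕ, 1 ≤ a → 1 ≤ b → Nat.Coprime a b → f (a * b) = f a * f b) →
      ∀ N : ℕ, N₀ ≤ N → ∫ θ in (0 : ℝ)..1, Set.indicator {θ : ℝ | ∃ x ∈ K, ‖((θ : ℝ) : UnitAddCircle) - x‖ < ρ}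
        (fun _ => (1 : ℝ)) θ * ‖∑ n ∈ Icc 1 N, f n *
          Complex.exp (2 * Real.pi * Complex.I * (n * θ : ℝ))‖ ^ 2 ≤ ε * N := by
  obtain ⟨ρ, hρ, N0, h⟩ := good_mult hC hs0 hs κ hκ ε hε
  exact ⟨ρ, hρ, N0, fun K hK hK2 f hf hf2 N hN => h K ⟨hK, hK2⟩ f ⟨hf, hf2⟩ N hN⟩

end Pool.Agent.Results.MP_f3f922_nt.SpectralDimension
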