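import Pool.Agent.TH935.EL2
import Pool.Agent.TH823.Fam.Fam2

/-!
# The asymptotic form of Elliott's conjecture for almost all values of one shift in thin families

From Mathlib: `Polynomial ℤ`: the polynomials with integer coefficients; `P.eval m`: the value at `m`.
-/

set_option autoImplicit false

namespace Pool.Agent.Results.MP_f3f922_nt.ThinFamilyShifts

open Finset

/-- `f` is multiplicative with values in the closed unit disc. -/
def BMul (f : ℕ → ℂ) : Prop := (∀ n, ‖f n‖ ≤ 1) ∧ ∀ m n : ℕ, Nat.Coprime m n → f (m * n) = f m * f n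

/-- `|∑_{n ≤ y, n ≡ r mod q} f(n)| ≤ N / A` for all moduli `q ≤ A`, all residues `r` and all `y ≤ A N`. -/
def SmallMeans (f : ℕ → ℂ) (A N : ℕ) : Prop := ∀ q r y : ℕ, 1 ≤ q → q ≤ A → y ≤ A * N →
  ‖∑ n ∈ (Icc 1 y).filter (fun n => n ≡ r [MOD q]), f n‖ ≤ N / A

/-- The extension of a function on the positive integers to the integers, with the value `0` at the integers
`m ≤ 0`. -/
noncomputable def ext (f : ℕ → ℂ) (m : ℤ) : ℂ := if 1 ≤ m then f m.toNat else 0

/-- The additive energy of order `p` of the family `s 1, ..., s x`: the number of the solutions of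
`s (v 1) + ... + s (v p) = s (w 1) + ... + s (w p)` with all `v i`, `w i` in `{1, ..., x}`. -/
def energy (p x : ℕ) (s : ℕ → ℤ) : ℕ :=
  (((Fintype.piFinset fun _ : Fin p => Icc 1 x) ×ˢ (Fintype.piFinset fun _ : Fin p => Icc 1 x)).filter
    (fun q => ∑ i, s (q.1 i) = ∑ i, s (q.2 i))).card

open Classical in
/-- The number of the `m` in `{1, ..., x}` with the property `E`. -/
noncomputable def num (x : ℕ) (E : ℕ → Prop) : ℝ := (((Icc 1 x).filter E).card : ℝ)

lemma num_eq (x : ℕ) (E : ℕ → Prop) [DecidablePred E] : num x E = (((Icc 1 x).filter E).card : ℝ) := by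
  unfold num
  congr!

lemma sm_of (f : ℕ → ℂ) (A A0 N M0 : ℕ) (hA0 : 1 ≤ A0) (h1 : A0 ≤ A) (h2 : M0 ≤ A) (hM : 1 ≤ M0) (h : SmallMeans f A N) :
    Pool.Agent.TH935.EL.SM f A0 (M0 * N) := by
  intro q r y hq hqA hy
  refine (h q r y hq (hqA.trans h1) (hy.trans (Nat.mul_le_mul_right _ h2))).trans ?_
  have e1 : (0 : ℝ) < A0 := by exact_mod_cast hA0
  have e2 : (A0 : ℝ) ≤ A := by exact_mod_cast h1
  have e3 : (1 : ℝ) ≤ M0 := by exact_mod_cast hM
  have e4 : (0 : ℝ) ≤ N := Nat.cast_nonneg _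
  calc (N : ℝ) / A ≤ N / A0 := div_le_div_of_nonneg_left e4 e1 e2
    _ ≤ ((M0 * N : ℕ) : ℝ) / A0 := by
      apply div_le_div_of_nonneg_right _ e1.le
      push_cast
      nlinarith

theorem general (p B K : ℕ) (C ε : ℝ) (hC : 0 < C) (hε : 0 < ε) : ∃ A N₀ : ℕ, 1 ≤ A ∧ ∀ N : ℕ, N₀ ≤ N →
    ∀ (x : ℕ) (s : ℕ → ℤ), (∀ m ∈ Icc 1 x, |s m| ≤ B * N) → (energy p x s : ℝ) * N ≤ C * (x : ℝ) ^ (2 * p) →
    ∀ f : ℕ → ℂ, BMul f → SmallMeans f A N →
    ∀ (α : Fin K → ℕ) (g : Fin K → ℕ → ℂ), (∀ l, 1 ≤ α l) → (∀ l n, ‖g l n‖ ≤ 1) →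
    num x (fun m => ¬ ∀ l, ∀ X : ℕ, α l * X ≤ B * N →
      ‖∑ n ∈ Icc 1 X, g l n * ext f (α l * n + s m)‖ ≤ ε * N) ≤ ε * x := by
  classical
  obtain ⟨A0, N₀, hA0, h0⟩ := Pool.Agent.TH935.EL.fam_mul p B K C ε hC hε
  refine ⟨A0 + 2 * (B + 1), N₀, by omega, fun N hN x s hs hE f hf hsm α g hα hg => ?_⟩
  have hsm' := sm_of f (A0 + 2 * (B + 1)) A0 N (2 * (B + 1)) hA0 (by omega) (by omega) (by omega) hsm
  rw [mul_assoc] at hsm'
  refine le_trans (le_of_eq (num_eq _ _)) (h0 N hN x s hs hE f hf hsm'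
    (fun l => if hl : l < K then α ⟨l, hl⟩ else 1)
    (fun l n => if hl : l < K then g ⟨l, hl⟩ n else 0) (by
      intro l hl
      simp only [hl, dif_pos]
      exact hα _) (by
      intro l hl n
      simp only [hl, dif_pos]
      exact hg _ _)
    (fun m => ¬ ∀ l, ∀ X : ℕ, α l * X ≤ B * N →
      ‖∑ n ∈ Icc 1 X, g l n * ext f (α l * n + s m)‖ ≤ ε * N) (by
    intro m _ hm
    push Not at hm
    obtain ⟨l, X, hX, h2⟩ := hm
    refine ⟨l, l.2, X, ?_, lt_of_lt_of_eq h2 ?_⟩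
    · simp only [l.2, dif_pos]
      exact hX
    · simp only [l.2, dif_pos]
      congr 1))

/-- Let `B`, `K`, `C > 0` and `ε > 0` be fixed.

* Let `p` be fixed. There is an `A` such that the following holds for all large `N`. Let `s 1, ..., s x` be an arbitrary
  family of integers in `[-B N, B N]` whose additive energy of order `p` is at most `C x ^ (2 p) / N` (up to the constant
  this is the least possible value; the family may have as few as `N ^ (1 / p)` members). Let `f` be an ARBITRARY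
  multiplicative function with values in the unit disc with `|∑_{n ≤ y, n ≡ r mod q} f(n)| ≤ N / A` for all `q ≤ A`, all `r`
  and all `y ≤ A N`. For each of `K` indices `l` let `α l ≥ 1` and let `g l` be an ARBITRARY function bounded by `1`, for
  example `g l n = f_2(n + h_2) ... f_k(n + h_k)`. Then for all `m ≤ x` with at most `ε x` exceptions, the shift
  `h_1 = s m` satisfies `|∑ n ≤ X, g l n * f (α l * n + h_1)| ≤ ε N` for all `l` and all `X ≤ B N / α l`.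
* In particular this holds for the shifts `h_1 = c + P(m)`, `m ≤ x`, where `P` is a fixed nonconstant polynomial with
  integer coefficients, of degree `d`, `N / C ≤ x ^ d ≤ B N` and `|c| ≤ B N`. -/
theorem result (B K : ℕ) (C ε : ℝ) (hC : 0 < C) (hε : 0 < ε) :
    (∀ p : ℕ, ∃ A N₀ : ℕ, 1 ≤ A ∧ ∀ N : ℕ, N₀ ≤ N →
      ∀ (x : ℕ) (s : ℕ → ℤ), (∀ m ∈ Icc 1 x, |s m| ≤ B * N) → (energy p x s : ℝ) * N ≤ C * (x : ℝ) ^ (2 * p) →
      ∀ f : ℕ → ℂ, BMul f → SmallMeans f A N →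
      ∀ (α : Fin K → ℕ) (g : Fin K → ℕ → ℂ), (∀ l, 1 ≤ α l) → (∀ l n, ‖g l n‖ ≤ 1) →
      num x (fun m => ¬ ∀ l, ∀ X : ℕ, α l * X ≤ B * N →
        ‖∑ n ∈ Icc 1 X, g l n * ext f (α l * n + s m)‖ ≤ ε * N) ≤ ε * x) ∧
    (∀ P : Polynomial ℤ, 1 ≤ P.natDegree → ∃ A N₀ : ℕ, 1 ≤ A ∧ ∀ N : ℕ, N₀ ≤ N →
      ∀ x : ℕ, x ^ P.natDegree ≤ B * N → (N : ℝ) ≤ C * (x : ℝ) ^ P.natDegree → ∀ c : ℤ, |c| ≤ B * N →
      ∀ f : ℕ → ℂ, BMul f → SmallMeans f A N →
      ∀ (α : Fin K → ℕ) (g : Fin K → ℕ → ℂ), (∀ l, 1 ≤ α l) → (∀ l n, ‖g l n‖ ≤ 1) →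
      num x (fun m => ¬ ∀ l, ∀ X : ℕ, α l * X ≤ B * N →
        ‖∑ n ∈ Icc 1 X, g l n * ext f (α l * n + (c + P.eval (m : ℤ)))‖ ≤ ε * N) ≤ ε * x) := by
  classical
  refine ⟨fun p => general p B K C ε hC hε, fun P hd => ?_⟩
  obtain ⟨p, C1, hC1, h1⟩ := Pool.Agent.TH823.Fam.energy_poly' P hd
  obtain ⟨A1, hA1⟩ := Pool.Agent.TH823.Fam.poly_size P
  obtain ⟨A, N₀, hA, h0⟩ := general p (B + A1 * B) K (C * C1) ε (by positivity) hε
  refine ⟨A, N₀ + 1, hA, fun N hN x hx1 hx2 c hc f hf hsm α g hα hg => ?_⟩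
  have hN0 : (0 : ℝ) < N := by exact_mod_cast (by omega : 0 < N)
  have hx : 1 ≤ x := by
    by_contra hcon
    have : x = 0 := by omega
    subst this
    rw [Nat.cast_zero, zero_pow (by omega), mul_zero] at hx2
    linarith
  have h3 := h0 N (by omega) x (fun m => c + P.eval (m : ℤ)) (fun m hm => by
    refine (abs_add_le _ _).trans ?_
    have h3 := hA1 x hx m hm
    have h4 : (x : ℤ) ^ P.natDegree ≤ B * N := by exact_mod_cast hx1
    push_cast
    calc |c| + |P.eval (m : ℤ)| ≤ B * N + A1 * (B * N) := by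
          apply add_le_add hc (h3.trans _)
          exact mul_le_mul_of_nonneg_left h4 (by positivity)
      _ = (B + A1 * B) * N := by ring) (by
    have h3 := h1 x hx c
    calc (energy p x (fun m => c + P.eval (m : ℤ)) : ℝ) * N ≤
          (energy p x (fun m => c + P.eval (m : ℤ)) : ℝ) * (C * (x : ℝ) ^ P.natDegree) :=
          mul_le_mul_of_nonneg_left hx2 (Nat.cast_nonneg _)
      _ = C * ((energy p x (fun m => c + P.eval (m : ℤ)) : ℝ) * (x : ℝ) ^ P.natDegree) := by ring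
      _ ≤ C * (C1 * (x : ℝ) ^ (2 * p)) := mul_le_mul_of_nonneg_left h3 hC.le
      _ = _ := by ring) f hf hsm α g hα hg
  refine le_trans ?_ h3
  rw [num_eq, num_eq]
  apply Nat.cast_le.2
  apply card_le_card
  intro m hm
  rw [mem_filter] at hm ⊢
  refine ⟨hm.1, fun hcon => hm.2 fun l X hX => hcon l X (hX.trans (Nat.mul_le_mul_right _ ?_))⟩
  omega

end Pool.Agent.Results.MP_f3f922_nt.ThinFamilyShifts
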